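import Pool.Agent.W361.LQ.Stm

/-! # Project LQ: the complement of the jump is not Sigma_2 -/

set_option autoImplicit false

namespace Pool.Agent.W436.LQ

open Pool.Agent.Helper227 Pool.Agent.H685R3 Pool.Agent.W361.LQ
open Pool.Agent.W952.LP (zero)

theorem main : S_PI := by
  intro D hD hSI
  apply hD
  have h1 : SI D fun x : ℕ × Bool => D x.1 = !x.2 :=
    (SI.query (B := D)).comp (f := fun x : ℕ × Bool => (x.1, !x.2))
      (Primrec.fst.pair (Primrec.not.comp Primrec.snd))
  obtain ⟨f, hf, hfe⟩ := h1.to_jump
  have h2 : SI (jump zero) fun x : ℕ × Bool => jump D (f x) = false :=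
    SI.comp_computable (p := fun n : ℕ => jump D n = false) hSI hf
  have h3 : TLe D (jump zero) := by
    rw [tLe_iff_SI]
    refine h2.of_eq fun x => ?_
    have h4 := hfe x
    constructor
    · intro h5
      by_contra h6
      have : D x.1 = !x.2 := by
        cases h7 : D x.1 <;> cases h8 : x.2 <;> simp_all
      rw [h4.1 this] at h5
      cases h5
    · intro h5
      rcases h6 : jump D (f x) with _ | _
      · rfl
      · have h7 := h4.2 h6
        rw [h5] at h7
        exact absurd h7.symm (Bool.not_ne_self x.2)
  have h5 : SI (jump zero) fun n : ℕ => jump D n = true := (si_jump D).trans h3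
  rw [tLe_iff_SI]
  have h6 : SI (jump zero) fun x : ℕ × Bool =>
      (jump D x.1 = true ∧ x.2 = true) ∨ (jump D x.1 = false ∧ x.2 = false) := by
    refine SI.or (SI.and (h5.comp (f := fun x : ℕ × Bool => x.1) Primrec.fst) (SI.of_prim ?_))
      (SI.and (SI.comp (p := fun n : ℕ => jump D n = false) (f := fun x : ℕ × Bool => x.1) hSI
        Primrec.fst) (SI.of_prim ?_))
    · exact Primrec.eq.comp Primrec.snd (Primrec.const true)
    · exact Primrec.eq.comp Primrec.snd (Primrec.const false)
  refine h6.of_eq fun x => ?_
  rcases x with ⟨n, b⟩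
  cases b <;> simp

end Pool.Agent.W436.LQ
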